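import Mathlib
import Pool.Agent.N883.DQ.Fin

/-!
# Beilinson's conjecture on ranks for diagonal cubic threefolds and fivefolds over `ℚ` and over
# infinite towers of number fields

Let `a = (a_0, …, a_{n+1})` be nonzero integers, `n = 3` or `n = 5`, and let `X_a` be the smooth cubic
hypersurface of dimension `n` with the equation

  `a_0 x_0³ + … + a_{n+1} x_{n+1}³ = 0`.

Let `M` be any finite set of primes `≡ 1` modulo `9`.  `D` runs through the squarefree numbers, prime
to `3` and to `M`, not `±1` modulo `9`, that are divisible by exactly one prime `2` modulo `3`.  A form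
`a` belongs to `(M, D)` if one of the `a_i` is `± D` or `± D²` and all the others are, up to the sign,
products of powers of elements of `M`.

* For a set of `D` whose proportion tends exactly to `c₃ ^ {3 ^ #M}`, `c₃ = ∏_{i ≥ 1} (1 - 3^{-i}) > 0.56`,
  the following holds for *all* the forms `a` that belong to `(M, D)` and for *all* the fields
  `K = ℚ(∛l : l ∈ S)`, `S ⊆ M` (`K = ℚ` for `S = ∅`), for `n = 3` and for `n = 5`:
  `L(H^n(X_a / K), s)` is continued and not zero at its centre `s = (n + 1) / 2`, and the elliptic curves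
  over `K` whose product is isogenous to the intermediate Jacobian of `X_a` have finitely many points.
* For each of these `D` there are infinitely many primes `l` such that the same holds for `M ∪ {l}`.
  So for each of these `D` there are infinite towers of such fields `K`.

The curves: put `c = (n - 1) / 2`.  For a set `T` of `c` indices let `δ_T = ∏ a_i ∏_{i ∈ T} a_i`, and let
`E_δ` be the curve `y² + δ y = x³`.  The intermediate Jacobian `J` of `X_a` is isogenous over `ℚ` to
`∏_T E_{δ_T}`, and `CH^{c+1}(X_a / K)_0 ⊗ ℚ = J(K) ⊗ ℚ` (Bloch–Murre for the threefolds, Collino and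
Paranjape for the fivefolds); this is not formalized.  So both sides of Beilinson's conjecture are `0` for
these `X_a` over `K`, in the cases `i = 1` and `i = 2`.

The `L`-function is given by the numbers of points: for a place `v` of `K` not dividing
`3 D ∏_{l ∈ M} l` the eigenvalues `α` of the Frobenius on `H^n(X_a)` (`10` for `n = 3` and `42` for
`n = 5`) are determined by `#X_a(F) = 1 + q + … + q^n - ∑ α^r` for all the fields `F` with
`q = N(v)^r` elements.  The Euler factors at the finitely many other places are left out; they are finite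
and not zero at the centre, so the order of vanishing is the same.

The point counts (Gauss sums, the relation of Hasse and Davenport; for `q ≡ 2` modulo `3` the cubic Gauss
sum over the quadratic extension is `q`), the Euler products, the duality `a b² ↦ a² b` and the families
are in `Pool/Agent/N883`.  The non-vanishing of the `L`-functions of the curves `E_N` over these fields,
the finiteness of `E_N(K)` and the joint law of the twists are the joint work of the seats named in the
headers of `MP_ae0bd0_nt/FixedCubicRadicalFields`, `Pool/Agent/Y703/CT`, `Pool/Agent/R432/JG` and of the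
files imported there.
-/

set_option autoImplicit false

namespace Pool.Agent.Results.MP_6dc9d1_nt.DiagonalCubics

open scoped Classical
open NumberField IsDedekindDomain

/-- The solutions, not all zero, of `∑ a i x i ^ 3 = 0` in the field `F`. -/
def solutions {m : ℕ} (a : Fin m → ℤ) (F : Type) [Field F] : Set (Fin m → F) :=
  {x | x ≠ 0 ∧ ∑ i, (a i : F) * x i ^ 3 = 0}

/-- `A` is the multiset of the eigenvalues of the Frobenius of the field with `q` elements on
`H^n(X_a)`, `n` odd: for every field `F` with `q ^ r` elements the equation of `X_a` has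
`(#F - 1) (1 + #F + ... + #F^n - ∑ α^r)` nonzero solutions in `F`. -/
def IsFrobenius (n : ℕ) (a : Fin (n + 2) → ℤ) (q : ℕ) (A : Multiset ℂ) : Prop :=
  ∀ (F : Type) [Field F] [Finite F] (r : ℕ), Nat.card F = q ^ r →
    ((solutions a F).ncard : ℂ) = (Nat.card F - 1) *
      (∑ i ∈ Finset.range (n + 1), (Nat.card F : ℂ) ^ i - (A.map (fun α => α ^ r)).sum)

/-- `L` is entire and equal for `Re s > n / 2 + 1` to the Euler product of `L(H^n(X_a / K), s)` over the
places `v` of `K` not dividing `B`.  Here `b` is the dimension of `H^n(X_a)`, and the `b` eigenvalues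
at these places have the absolute value `N(v) ^ (n / 2)`. -/
def IsLFunction (K : Type) [Field K] [NumberField K] (n b : ℕ) (a : Fin (n + 2) → ℤ) (B : ℕ)
    (L : ℂ → ℂ) : Prop :=
  Differentiable ℂ L ∧ ∃ A : HeightOneSpectrum (𝓞 K) → Multiset ℂ,
    (∀ v, (B : 𝓞 K) ∉ v.asIdeal → IsFrobenius n a (Ideal.absNorm v.asIdeal) (A v) ∧
      (A v).card = b ∧ ∀ α ∈ A v, ‖α‖ ^ 2 = (Ideal.absNorm v.asIdeal : ℝ) ^ n) ∧
    ∀ s : ℂ, (n : ℝ) / 2 + 1 < s.re →
      HasProd (fun v : {v : HeightOneSpectrum (𝓞 K) // (B : 𝓞 K) ∉ v.asIdeal} =>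
        ((A v.1).map (fun α => (1 - α * (Ideal.absNorm v.1.asIdeal : ℂ) ^ (-s))⁻¹)).prod) (L s)

/-- The curve `E_δ : y² + δ y = x³` over `K`. -/
def curve (K : Type) [Field K] (δ : ℤ) : WeierstrassCurve K := ⟨0, 0, (δ : K), 0, 0⟩

/-- `δ_T = ∏ a i ∏_{i ∈ T} a i`. -/
def twist {m : ℕ} (a : Fin m → ℤ) (T : Finset (Fin m)) : ℤ := (∏ i, a i) * ∏ i ∈ T, a i

/-- For all the sets `T` of `c` indices the group `E_δ(K)`, `δ = δ_T`, is finite, and
`L(H^{2 c + 1}(X_a / K), s)` (`X_a` of dimension `2 c + 1` in the projective space of dimension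
`2 c + 2`; the dimension of the cohomology group is `2 binomial(2 c + 3, c)`), without the factors at
the places dividing `B`, is entire and not zero at the centre `s = c + 1`. -/
def RankZero (K : Type) [Field K] [NumberField K] (B c : ℕ) (a : Fin (2 * c + 3) → ℤ) : Prop :=
  (∀ T : Finset (Fin (2 * c + 3)), T.card = c → Finite (curve K (twist a T)).toAffine.Point) ∧
    ∃ L : ℂ → ℂ, IsLFunction K (2 * c + 1) (2 * (2 * c + 3).choose c) a B L ∧ L (c + 1) ≠ 0

/-- `D` is squarefree, not divisible by `3`, not `±1` modulo `9`, not divisible by the elements of `M`,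
and divisible by exactly one prime that is `2` modulo `3`. -/
def InClass (M : Finset ℕ) (D : ℕ) : Prop :=
  Squarefree D ∧ ¬ 3 ∣ D ∧ D % 9 ≠ 1 ∧ D % 9 ≠ 8 ∧ (∀ l ∈ M, ¬ l ∣ D) ∧
    ∃ q : ℕ, q.Prime ∧ q % 3 = 2 ∧ q ∣ D ∧ ∀ p : ℕ, p.Prime → p ∣ D → p ≠ q → p % 3 = 1

/-- In every factorization of `N` in coprime factors `d₀ d₁ d₂` for which `d₁ d₂²`, `d₂ d₀²`,
`d₀ d₁²` are cubes modulo the primes dividing `d₀`, `d₁`, `d₂` respectively, two factors are `1`. -/
def HasNoSplitting (N : ℕ) : Prop :=
  ∀ d : ZMod 3 → ℕ, ∏ c, d c = N → (∀ c c', c ≠ c' → Nat.Coprime (d c) (d c')) →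
    (∀ (c : ZMod 3) (p : ℕ), p.Prime → p ∣ d c →
      ∃ x : ℤ, (p : ℤ) ∣ (d (c + 1) : ℤ) * (d (c + 2) : ℤ) ^ 2 - x ^ 3) →
    ∃ c, ∀ c', c' ≠ c → d c' = 1

/-- All the `3 ^ #M` numbers `D ∏_{l ∈ M} l ^ (t l)` with exponents `0`, `1`, `2` have no splitting. -/
def Good (M : Finset ℕ) (D : ℕ) : Prop :=
  ∀ t : {l : ℕ // l ∈ M} → ZMod 3, HasNoSplitting (D * ∏ l : {l : ℕ // l ∈ M}, l.1 ^ (t l).val)

/-- One `a i` is `± D` or `± D²`, and the others are not zero and only divisible by primes of `M`. -/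
def IsForm (M : Finset ℕ) (D : ℕ) {m : ℕ} (a : Fin m → ℤ) : Prop :=
  ∃ j, ((a j).natAbs = D ∨ (a j).natAbs = D ^ 2) ∧
    ∀ i, i ≠ j → a i ≠ 0 ∧ ∀ p : ℕ, p.Prime → (p : ℤ) ∣ a i → p ∈ M

/-- `K = ℚ(∛l : l ∈ S)`. -/
def Generated (S : Finset ℕ) (K : Type) [Field K] : Prop :=
  ∃ r : ℕ → K, (∀ l ∈ S, r l ^ 3 = (l : K)) ∧ ∀ F : Subfield K, (∀ l ∈ S, r l ∈ F) → F = ⊤

open Pool.Agent.R432.JG (Cl cl_iff)

/-- **Main theorem.**  `c₃ = ∏_{i ≥ 1} (1 - 3^{-i}) > 0.56`.  For every finite set `M` of primes `≡ 1`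
modulo `9`: the number of the `D ≤ X` in the class is at least `c' X / √(log X)`; the proportion of the
good `D` tends to `c₃ ^ (3 ^ #M)`; and every good `D` of the class is good for `M ∪ {l}` for infinitely
many primes `l ≡ 1` modulo `9`, and for all the fields `K = ℚ(∛l : l ∈ S)`, `S ⊆ M` (they exist and
have the degree `3 ^ #S`), and for all the threefolds (`c = 1`) and all the fivefolds (`c = 2`) `X_a`
that belong to `(M, D)` the statement `RankZero` is true. -/
theorem result :
    (0.56 : ℝ) < ∏' i : ℕ, (1 - (1 / 3 : ℝ) ^ (i + 1)) ∧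
    ∀ M : Finset ℕ, (∀ l ∈ M, l.Prime ∧ l % 9 = 1) →
      (∃ c' : ℝ, 0 < c' ∧ ∃ X₀ : ℕ, ∀ X : ℕ, X₀ ≤ X →
        c' * X / Real.sqrt (Real.log X) ≤
          (((Finset.Icc 1 X).filter fun D => InClass M D).card : ℝ)) ∧
      Filter.Tendsto (fun X : ℕ =>
        (((Finset.Icc 1 X).filter fun D => InClass M D ∧ Good M D).card : ℝ) /
          (((Finset.Icc 1 X).filter fun D => InClass M D).card : ℝ)) Filter.atTop
        (nhds ((∏' i : ℕ, (1 - (1 / 3 : ℝ) ^ (i + 1))) ^ (3 ^ M.card))) ∧
      ∀ D : ℕ, InClass M D → Good M D →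
        {l : ℕ | l.Prime ∧ l % 9 = 1 ∧ ¬ l ∣ D ∧ l ∉ M ∧ Good (insert l M) D}.Infinite ∧
        ∀ S : Finset ℕ, S ⊆ M →
          (∃ (K : Type) (_ : Field K) (_ : NumberField K), Generated S K) ∧
          ∀ (K : Type) [Field K] [NumberField K], Generated S K →
            Module.finrank ℚ K = 3 ^ S.card ∧
            ∀ c : ℕ, c = 1 ∨ c = 2 → ∀ a : Fin (2 * c + 3) → ℤ, IsForm M D a →
              RankZero K (3 * D * ∏ l ∈ M, l) c a := by
  refine ⟨Pool.Agent.R432.JG.c3_gt, fun M hM => ?_⟩
  have e1 : ∀ X : ℕ, (Finset.Icc 1 X).filter (fun D => InClass M D) =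
      (Finset.Icc 1 X).filter fun D => Cl M D := fun X =>
    Finset.filter_congr fun D _ => (cl_iff M D).symm
  have e2 : ∀ X : ℕ, (Finset.Icc 1 X).filter (fun D => InClass M D ∧ Good M D) =
      (Finset.Icc 1 X).filter fun D => Cl M D ∧
        Pool.Agent.R432.JG.AG M Finset.univ D := fun X =>
    Finset.filter_congr fun D _ => by
      rw [show InClass M D ↔ Cl M D from (cl_iff M D).symm]
      refine and_congr_right fun hC => ?_
      unfold Good Pool.Agent.R432.JG.AG
      exact ⟨fun h t _ => h t, fun h t => h t (Finset.mem_univ t)⟩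
  have hcard : (Finset.univ : Finset ({l : ℕ // l ∈ M} → ZMod 3)).card = 3 ^ M.card := by
    rw [Finset.card_univ, Fintype.card_fun, ZMod.card, Fintype.card_coe]
  refine ⟨?_, ?_, fun D hD hN => ?_⟩
  · simp only [e1]
    exact Pool.Agent.R432.JG.low hM
  · simp only [e1, e2]
    have h := Pool.Agent.R432.JG.law_all hM Finset.univ
    rw [hcard] at h
    exact h
  · have hC : Cl M D := (cl_iff M D).2 hD
    refine ⟨Pool.Agent.N883.DQ.more hM hC hN, fun S hS => ⟨Pool.Agent.R432.JG.exists_gen S,
      fun K _ _ hK => ?_⟩⟩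
    obtain ⟨r, hr1, hr2⟩ := hK
    obtain ⟨h1, h2⟩ := Pool.Agent.N883.DQ.one_K hM hC hN hS r hr1 hr2
    exact ⟨h1, fun c hc a ha => h2 c (by omega) a ha⟩

end Pool.Agent.Results.MP_6dc9d1_nt.DiagonalCubics
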