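import Mathlib
import Pool.Agent.Results.MP_1a91b9_nt.AlmostAllConductors
import Pool.Agent.Results.MP_32c55d_nt.AllMultiquadratic
import Pool.Agent.Results.MP_0b9e0b_ag.QuadricPencilTowersOverK

/-!
# Beilinson's conjecture for a fixed intersection of two quadrics over the `(ℤ/2)^n`-extensions of
# `ℚ(√-7)`: almost all conductors

Let `K = ℚ(√-7)`, that is, a number field of degree two with an integer `a` such that `a² = a - 2`, let `E`
be the curve `y² + x y = x³ - x² - 2 x - 1` of conductor `49`, and let `n ≥ 2`. Let `X ⊂ P⁵` be the smooth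
intersection of the two quadrics
`(9 + 3 a) y₀² + y₁² + y₂² + y₃² + y₄² - y₅² = 0` and
`(9 + 3 a) y₀² - y₁² + a⁴ y₂² - a⁴ y₃² + 2 a² y₄ y₅ = 0`
over `K`. Its intermediate Jacobian is the Jacobian `J` of `y² = (9 + 3 a) (x² - 1) (x² + a⁴) (x² - a⁸)`, which
is isogenous to `E × E`. For a number field `L` over `K` we have `CH²(X_L)_0 ⊗ ℚ = J(L) ⊗ ℚ`, and Beilinson's
conjecture for `X_L` (`i = 1`) says that the rank of `E(L) × E(L)` is the order of `L(H³(X_L), s)` at `s = 2`.

Let `𝔣` be a squarefree ideal of `K` prime to `14`. We consider the tuples `d = (d_1, …, d_n)` of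
squarefree integers of `K` congruent to `1` modulo `4` and prime to `√-7`, independent modulo squares, for
which the prime divisors of `𝔣` are the primes that divide some `d_i`: so `L = K(√d_1, …, √d_n)` is an
extension of `K` with group `(ℤ/2)^n`, and `𝔣` is the product of the primes that ramify in `L`.
* If the twists of `E` by all the `2 ^ n - 1` nonempty products of the `d_i` have finitely many points over
  `K` and no element of order two in `Ш`, then the conjecture is true for `X_L` and both sides are `0`; the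
  same for every smooth intersection of two quadrics over `L` that is the base locus of a pencil over
  `𝓞 L` with the same discriminant curve.
* The proportion of these `L` among all the `L` (counted by tuples, ordered by the norm of `𝔣`) is exactly
  `c2 ^ (2 ^ n - 1)`, `c2 = ∏_{i ≥ 1} (1 - 2^(-i)) = 0.288…`.
* For almost all `𝔣` the proportion of these `L` among the `L` with the single conductor `𝔣` is as close as
  we like to `c2 ^ (2 ^ n - 1)`.

So the threefold is fixed and the field varies. The laws for the tuples are those of helper869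
(`MP_32c55d_nt/AllMultiquadratic`, `MP_1a91b9_nt/AlmostAllConductors`), the threefolds are treated in
`MP_0b9e0b_ag/QuadricPencilTowersOverK`.
-/

set_option autoImplicit false

namespace Pool.Agent.Results.MP_6dc9d1_nt.FixedThreefoldAllFields

open Pool.Agent.Results.MP_cd906c_nt.MultiquadraticX49 (InClass AllNoSelmer Independent c2)
open Pool.Agent.Results.MP_32c55d_nt.AllMultiquadratic (conductors family)
open Pool.Agent.Results.MP_1a91b9_nt.AlmostAllConductors (tuples Good Close)
open Pool.Agent.Results.MP_0b9e0b_ag.QuadricPencilTowersOverK (IsPencil Smooth IsL BeilinsonBloch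
  OverExtensions exA exB)
open NumberField IsDedekindDomain Filter Matrix

/-- Beilinson's conjecture over `L` for the base locus `X` of the pencil `x A - B` over `𝓞 L`, `J` isogenous
to `E × E`, with rank and order zero: `E(L)` is finite, `X` is smooth, and `L(H³(X), s)`, without the
places dividing `N`, is entire and not zero at `s = 2`. -/
def BeilinsonZero {L : Type} [Field L] [NumberField L] (A B : Matrix (Fin 6) (Fin 6) (𝓞 L))
    (N : 𝓞 L) : Prop :=
  Finite (Pool.Agent.Results.MP_cd906c_nt.MultiquadraticX49.curve (1 : L)).toAffine.Point ∧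
    (∀ (k : Type) [Field k] [CharZero k] (φ : 𝓞 L →+* k), Smooth A B φ) ∧
    ∃ F : ℂ → ℂ, IsL A B N F ∧ F 2 ≠ 0

/-- The conjecture for the fixed threefold `X` over the fields `L = K(√d_1, …, √d_n)`, `[L : K] = 2 ^ n`,
and for all the pencils over `𝓞 L` with the same discriminant curve. -/
def OverFields {K : Type} [Field K] [NumberField K] (a : 𝓞 K) {n : ℕ} (d : Fin n → 𝓞 K) : Prop :=
  ∀ (L : Type) [Field L] [NumberField L] [Algebra K L] (x : Fin n → L),
    (∀ i, x i ^ 2 = algebraMap K L (d i)) → IntermediateField.adjoin K (Set.range x) = ⊤ →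
    Module.finrank K L = 2 ^ n ∧
      BeilinsonZero ((exA a 1).map (algebraMap (𝓞 K) (𝓞 L))) ((exB a 1).map (algebraMap (𝓞 K) (𝓞 L)))
        (42 * algebraMap (𝓞 K) (𝓞 L) (∏ i, d i)) ∧
      ∀ (m : 𝓞 L) (A B : Matrix (Fin 6) (Fin 6) (𝓞 L)), m ≠ 0 →
        IsPencil (algebraMap (𝓞 K) (𝓞 L) a) 1 1 m A B →
        BeilinsonZero A B (42 * m * algebraMap (𝓞 K) (𝓞 L) (∏ i, d i))

section proof

variable {K : Type} [Field K] [NumberField K]

lemma map_exA {R S : Type} [CommRing R] [CommRing S] (f : R →+* S) (w : R) :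
    (exA w 1).map f = exA (f w) 1 := by
  unfold exA
  refine Matrix.ext fun i j => ?_
  fin_cases i <;> fin_cases j <;> simp
  rw [map_ofNat f 9, map_ofNat f 3]

lemma map_exB {R S : Type} [CommRing R] [CommRing S] (f : R →+* S) (w : R) :
    (exB w 1).map f = exB (f w) 1 := by
  unfold exB
  refine Matrix.ext fun i j => ?_
  fin_cases i <;> fin_cases j <;> simp
  rw [map_ofNat f 9, map_ofNat f 3]

/-- a good tuple -/
lemma good_of {a : 𝓞 K} (ha : a ^ 2 = a - 2) (hK : Module.finrank ℚ K = 2) {n : ℕ}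
    {d : Fin n → 𝓞 K} (hg : Good a (Finset.univ.filter fun T => T.Nonempty) d) :
    Pool.Agent.Results.MP_0b9e0b_ag.QuadricPencilTowersOverK.Good a d 1 := by
  classical
  refine ⟨Pool.Agent.N843.TT.one_mem ha hK, fun i => isCoprime_one_left, fun T N c hN hc hT => ?_⟩
  rw [one_mul] at hT
  rcases T.eq_empty_or_nonempty with rfl | hT'
  · rw [Finset.prod_empty] at hT
    exact Pool.Agent.Results.MP_1a91b9_nt.AlmostAllConductors.good_one ha hK hN hc hT
  · exact hg T (Finset.mem_filter.2 ⟨Finset.mem_univ _, hT'⟩) N c hN hc hT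

lemma zero_of {L : Type} [Field L] [NumberField L] {w N : 𝓞 L}
    (h : BeilinsonBloch w 1 1 N) {m : 𝓞 L} (hm : m ≠ 0) {A B : Matrix (Fin 6) (Fin 6) (𝓞 L)}
    (hAB : IsPencil w 1 1 m A B) : BeilinsonZero A B (42 * m * N) := by
  obtain ⟨h1, -, h2⟩ := h
  obtain ⟨h3, -, F, h4, h5⟩ := h2 m hm A B hAB
  rw [one_mul, one_mul] at h4
  refine ⟨?_, h3, F, h4, h5⟩
  have e : (((1 : 𝓞 L) : 𝓞 L) : L) = 1 := map_one _
  rw [e] at h1
  exact h1

/-- the fields -/
lemma over_fields {a : 𝓞 K} (ha : a ^ 2 = a - 2) (hK : Module.finrank ℚ K = 2) {n : ℕ}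
    {d : Fin n → 𝓞 K} (hd : ∀ i, InClass a (d i)) (hind : Independent d)
    (hg : Good a (Finset.univ.filter fun T => T.Nonempty) d) : OverFields a d := by
  intro L _ _ _ x hx hL
  have h1 := good_of ha hK hg
  obtain ⟨h2, h3⟩ := Pool.Agent.Results.MP_0b9e0b_ag.QuadricPencilTowersOverK.over_of ha hK hd hind
    h1 h1 L x hx hL
  rw [map_one] at h3
  refine ⟨h2, ?_, fun m A B hm hAB => zero_of h3 hm hAB⟩
  have h4 := Pool.Agent.Results.MP_0b9e0b_ag.QuadricPencilTowersOverK.ex_pencil
    (algebraMap (𝓞 K) (𝓞 L) a) (1 : 𝓞 L)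
  have h5 := zero_of h3 one_ne_zero h4
  rw [mul_one] at h5
  rw [map_exA, map_exB]
  exact h5

end proof

/-- **Main theorem.** Beilinson's conjecture for a fixed intersection of two quadrics in `P⁵` over the
`(ℤ/2)^n`-extensions of `ℚ(√-7)`, `n ≥ 2`: exact proportion, and almost all conductors. -/
theorem result (K : Type) [Field K] [NumberField K] (a : 𝓞 K) (ha : a ^ 2 = a - 2)
    (hK : Module.finrank ℚ K = 2) (n : ℕ) (hn : 2 ≤ n) :
    -- the conjecture over the fields of the good tuples
    (∀ 𝔣 : Ideal (𝓞 K), ∀ d ∈ tuples a n 𝔣,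
      Good a (Finset.univ.filter fun T => T.Nonempty) d → OverFields a d) ∧
    -- the proportion of the good tuples among all the tuples
    (∀ X : ℕ, (family a n X).Finite) ∧
    (∃ c : ℝ, 0 < c ∧ ∀ᶠ X : ℕ in atTop,
      c * (X * (Real.log X) ^ (2 ^ n - 2)) ≤ ((family a n X).ncard : ℝ)) ∧
    Tendsto (fun X : ℕ =>
      ({d ∈ family a n X | Good a (Finset.univ.filter fun T => T.Nonempty) d}.ncard : ℝ) /
        ((family a n X).ncard : ℝ)) atTop (nhds (c2 ^ (2 ^ n - 1))) ∧
    -- the proportion among the tuples of a single conductor, for almost all conductors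
    (∀ δ : ℝ, 0 < δ → Tendsto (fun X : ℕ =>
      ({𝔣 ∈ conductors K X | Close a (Finset.univ.filter fun T : Finset (Fin n) => T.Nonempty)
        (c2 ^ (2 ^ n - 1)) δ 𝔣}.ncard : ℝ) / ((conductors K X).ncard : ℝ)) atTop (nhds 1)) ∧
    (∃ c : ℝ, 0 < c ∧ ∀ᶠ X : ℕ in atTop, c * X ≤ ((conductors K X).ncard : ℝ)) ∧
    -- the fixed threefold
    IsPencil a 1 1 1 (exA a 1) (exB a 1) ∧
    0.288 < c2 ∧ c2 < 0.289 := by
  obtain ⟨a1, a2, a3, a4, a5, a6⟩ :=
    Pool.Agent.Results.MP_32c55d_nt.AllMultiquadratic.result K a ha hK n hn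
  obtain ⟨-, b2, b3, -, -, b6⟩ :=
    Pool.Agent.Results.MP_1a91b9_nt.AlmostAllConductors.result K a ha hK n hn
  have hne : ∀ T ∈ Finset.univ.filter (fun T : Finset (Fin n) => T.Nonempty), T.Nonempty :=
    fun T hT => (Finset.mem_filter.1 hT).2
  have a3' := a3 _ hne
  rw [a4] at a3'
  refine ⟨fun 𝔣 d hd hg => over_fields ha hK hd.1 hd.2.1 hg, fun X => (a1 X).1, a2, ?_,
    fun δ hδ => ?_, b6,
    Pool.Agent.Results.MP_0b9e0b_ag.QuadricPencilTowersOverK.ex_pencil a 1, a5, a6⟩
  · exact a3'
  · have := b2 _ hne δ hδ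
    rw [b3] at this
    exact this

end Pool.Agent.Results.MP_6dc9d1_nt.FixedThreefoldAllFields
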