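import Pool.Agent.N19.BR.HB

/-!
# Beilinson's conjecture on Chow group rank and L-function vanishing: reduction to fields with
hyperelementary Galois action, large local degrees and at most two real places, for all varieties at once

`K` is a number field, `L` a finite Galois extension of `K` and `S` a finite set of primes of `K`.

The proof.  There is a relation `∑ e_j [F_j] = [K]`, with coefficient `1` on the right, between the
permutation characters of finite extensions `F_j` of `K` with the properties below
(`Pool.Agent.N19.BR`: for every prime number `p` a relation with a coefficient prime to `p`, in which the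
Galois groups of `L F_j / F_j` are `p`-hyperelementary, refined by the relations for the splitting fields of
the polynomials `(X^ℓ - a) h`, `ℓ ≠ p`, `a` a uniformizer at the primes in `S` and `h` of degree `ℓ` and
irreducible modulo these primes, and for `p ≠ 2` by the relations for `F(√a_1, …, √a_r)`, `a_j` positive at
only one of the `r` real places of `F`).  The Frobenius eigenvalues of a variety at a prime `w` of `F_j`
above `v` are the powers with exponent `f(w|v)` of those at `v`; so the relation gives
`L(X / K, s) = R(s) ∏ L(X_{F_j}, s) ^ e_j`, with `R` from finitely many Euler factors, and the same relation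
for the dimensions of the spaces fixed by the absolute Galois groups.

The definitions are in `Pool.Agent.N19.BR.HDefs`, `BBDefs`, `MDefs`, `Defs` and in
`Pool.Agent.W353.EF.Defs`.
-/

set_option autoImplicit false

namespace Pool.Agent.Results.MP_6dc9d1_nt.HyperelementaryBeilinson

open NumberField IsDedekindDomain Pool.Agent.N19.BR.MDef

/-- **Beilinson's formula.**  Let `L/K` be a finite Galois extension of number fields, `S` a finite set of
primes of `K` and `k ≥ 1`.  There is a finite list of number fields `F ⊇ K` such that for every `F` in the
list there is a prime number `p` for which the Galois group of `L F / F` is `p`-hyperelementary, the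
divisors of `k` prime to `p` divide the local degrees of `F / K` at the primes above `S`, and `F` has at most
two real places if `p ≠ 2`, and such that the following holds for ALL smooth projective varieties `X` over
`K`, of any odd dimension `2 i + 1`, with `V = CH^{i+1}(X ⊗ K̄)_0 ⊗ ℚ`, or any other representation: if over
all `F` in the list the function `L(H^{2i+1}(X), s)` has a meromorphic continuation and its order at `i + 1`
is the rank of `CH^{i+1}(X)_0`, which is finite, then the same is true over `K`. -/
theorem result (K : Type) [Field K] [NumberField K] (L : Type) [Field L] [NumberField L]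
    [Algebra K L] [IsGalois K L] (S : Set (HeightOneSpectrum (𝓞 K))) (hS : S.Finite) (k : ℕ)
    (hk : k ≠ 0) :
    ∃ Y : Set (IntermediateField K (AlgebraicClosure K)), SpecialList L S k Y ∧
      ∀ (n i N : ℕ) (X : Set (MvPolynomial (Fin n) (𝓞 K)))
        (V : Type) [AddCommGroup V] [Module ℚ V]
        (ρ : Representation ℚ Gal(AlgebraicClosure K/K) V) (U : Set ℂ), Domain (2 * i + 1) U →
        (∀ F ∈ Y, BeilinsonFormula ρ X i N U F) → BeilinsonOverBase ρ X i N U := by
  obtain ⟨r, Z, e, hrel, hZ⟩ := Pool.Agent.N19.BR.list_hyper K L hS hk
  refine ⟨Set.range fun j => Pool.Agent.N19.BR.img (Z j), ⟨Set.finite_range _, ?_⟩, ?_⟩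
  · rintro _ ⟨j, rfl⟩
    exact ⟨Pool.Agent.N19.BR.img_nf (Z j), Pool.Agent.N19.BR.img_hyper (Z j) (hZ j)⟩
  · intro n i N X V _ _ ρ U hU hF
    exact Pool.Agent.N19.BR.beilinson_of_rel ρ (fun j => Pool.Agent.N19.BR.img (Z j))
      (Pool.Agent.N19.BR.isRel_img' hrel) hU fun j => hF _ ⟨j, rfl⟩

end Pool.Agent.Results.MP_6dc9d1_nt.HyperelementaryBeilinson
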