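import Pool.Agent.N844.QP.PencilK
import Pool.Agent.N844.QP.Ex
import Pool.Agent.N856.JL.Fld
import Pool.Agent.N975.AF.Mq
import Pool.Agent.N975.SD.Dens
import Pool.Agent.N973.P15G.All
import Pool.Agent.N916.PQ.Main15
import Pool.Agent.N969.Den.Close
import Pool.Agent.N963.JT.Fin

/-!
# Beilinson's conjecture for intersections of two quadrics in `P⁵`: all twists of `X_0(15)`, all
multiquadratic fields

`E_a` is the quadratic twist by `-a` of the modular curve `E_{-1} = X_0(15)`, which has no complex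
multiplication. For all nonzero integers `a, a'` we consider all pencils of quadrics `x A - B` in `P⁵` with
the discriminant curve `C : y² = 2 a (a a' x² - 1) (a a' x² - 25) (3 a a' x² + 125)` (up to squares) and
their base loci `X`, of dimension three; the Jacobian of `C` is isogenous to `E_a × E_{a'}`, and
`CH²(X_K)_0 ⊗ ℚ = J(C)(K) ⊗ ℚ` over each field `K`. Let `K = ℚ(√d_1, …, √d_r)` be any multiquadratic field,
real or not, with any ramification, `r = 0` included; `E_a` is good over `K` if the `2 ^ r` twists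
`E_{a d_T}`, `d_T` the products of the `d_i`, have finitely many rational points over `ℚ` and no element of
order two in the Tate-Shafarevich group.

(1) If `E_a` and `E_{a'}` are good over `K`, then `E_a(K)` and `E_{a'}(K)` are finite, and for all pencils as
above `X` is smooth in characteristic zero and in the characteristics not dividing `30 a a' m`, and the
`L`-function of `H³(X_K)`, in terms of the numbers of points of `X` over all finite extensions of the
residue fields, without the factors at the places dividing `30 a a' m d_1 ⋯ d_r`, is entire and does not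
vanish at the centre `s = 2`: both sides of Beilinson's formula are zero.

(2) Over `ℚ` (`r = 0`): `E_{-D}`, the twist of `X_0(15)` by `D`, is good for exactly the proportion
`(23/48) η` of the squarefree `D > 0` and `(25/48) η` of the squarefree `D < 0`, also in the ordering by the
discriminant of `ℚ(√D)`, and both `E_{-D}` and `E_{-D'}` are good for exactly the proportion `(η / 2)²` of
all pairs `(D, D')` of squarefree integers; `η = ∏_{i ≥ 1} (1 - 2^{-i}) = 0.2887…`. For `D = D'` there is an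
explicit pencil for each `D`.

(3) Fixed threefold, varying field: for the explicit threefold `X` with `a = a' = -1`, whose Jacobian is
isogenous to `X_0(15)²`, `E_{-1}` is good over `K = ℚ(√D)` for exactly the proportion `(23/48) η` of all real
and `(25/48) η` of all imaginary quadratic fields.

The threefolds, the Gauss sum computation of the numbers of points over all finite fields, the
eigenvalues of Frobenius and the Euler product are helper844's (`Pool/Agent/N844/QP`); this is the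
extension of `Kept/QuadricPencils` to all twists, both signs, all multiquadratic fields. The twists of
`X_0(15)` are joint work of helpers 969, 970, 971, 972, 973, 974, 975, 871, 875, 877, 575, 402, 218, 886,
916, 958, 855, 963, 809 and others (`Results/MP_696deb_nt/Conductor15.lean`).
-/

set_option autoImplicit false

open NumberField IsDedekindDomain Filter Topology Matrix
open scoped LinearAlgebra.Projectivization

namespace Pool.Agent.Results.MP_6dc9d1_nt.QuadricPencilsAllFields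

/-- the twist `E_a : y² = x³ - 12987 a² x + 263466 a³` of `X_0(15)` by `-a`, over the field `K` -/
def E (a : ℤ) (K : Type) [Field K] : WeierstrassCurve K :=
  { a₁ := 0, a₂ := 0, a₃ := 0, a₄ := ((-12987 * a ^ 2 : ℤ) : K), a₆ := ((263466 * a ^ 3 : ℤ) : K) }

/-- `E_a(ℚ)` is finite and `Ш(E_a/ℚ)` has no element of order two -/
def RankZeroShaTwo (a : ℤ) : Prop :=
  Finite (E a ℚ).toAffine.Point ∧ ∀ x : Pool.Agent.TH841.SH.D.Sha (E a ℚ), 2 • x = 0 → x = 0

/-- `ℚ(√d_1, …, √d_r)` has degree `2 ^ r` -/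
def Independent {r : ℕ} (d : Fin r → ℤ) : Prop :=
  ∀ T : Finset (Fin r), T.Nonempty → ¬ IsSquare (∏ i ∈ T, d i)

/-- `K = ℚ(√d_1, …, √d_r)` -/
def IsMultiquadratic {r : ℕ} (d : Fin r → ℤ) (K : Type) [Field K] [NumberField K] : Prop :=
  ∃ x : Fin r → K, (∀ i, x i ^ 2 = (d i : K)) ∧ IntermediateField.adjoin ℚ (Set.range x) = ⊤

/-- `E_a` is good over `K = ℚ(√d_1, …, √d_r)` -/
def Good (a : ℤ) {r : ℕ} (d : Fin r → ℤ) : Prop :=
  ∀ T : Finset (Fin r), RankZeroShaTwo (a * ∏ i ∈ T, d i)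

/-- the quadratic form of a matrix -/
def qf {R : Type*} [CommRing R] {N : ℕ} (M : Matrix (Fin N) (Fin N) R) (y : Fin N → R) : R :=
  y ⬝ᵥ (M *ᵥ y)

/-- the integral pencils of quadrics in `P⁵` with the discriminant curve
`y² = 2n(nn'x² - 1)(nn'x² - 25)(3nn'x² + 125)` -/
structure IsPencil (n n' m : ℤ) (A B : Matrix (Fin 6) (Fin 6) ℤ) : Prop where
  symA : A.IsSymm
  symB : B.IsSymm
  disc : ∀ x : ℤ, -(x • A - B).det = 2 * n * m ^ 2 * ((n * n' * x ^ 2 - 1) *
    (n * n' * x ^ 2 - 25) * (3 * (n * n') * x ^ 2 + 125))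

/-- the reduction of an integral matrix to a field -/
def red {N : ℕ} (A : Matrix (Fin N) (Fin N) ℤ) (k : Type) [Field k] : Matrix (Fin N) (Fin N) k :=
  A.map (Int.castRingHom k)

/-- the base locus of the pencil is smooth over `k` (Jacobian criterion at the points over `k`) -/
def Smooth (A B : Matrix (Fin 6) (Fin 6) ℤ) (k : Type) [Field k] : Prop :=
  ∀ y : Fin 6 → k, y ≠ 0 → qf (red A k) y = 0 → qf (red B k) y = 0 →
    LinearIndependent k ![red A k *ᵥ y, red B k *ᵥ y]

/-- the number of points over `k` of the base locus `X ⊂ P⁵` of the pencil -/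
noncomputable def numP (A B : Matrix (Fin 6) (Fin 6) ℤ) (k : Type) [Field k] : ℕ :=
  Nat.card {P : ℙ k (Fin 6 → k) // qf (red A k) P.rep = 0 ∧ qf (red B k) P.rep = 0}

/-- the number of elements of the residue field of the place `v` -/
noncomputable def qv (K : Type) [Field K] (v : HeightOneSpectrum (𝓞 K)) : ℕ :=
  Nat.card (𝓞 K ⧸ v.asIdeal)

/-- `ω` are the eigenvalues of Frobenius at `v` on `H³(X)`: the number of points over every finite
extension `k` of degree `r` of the residue field with `q` elements is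
`1 + q^r + q^(2r) + q^(3r) - ∑ ω_j^r` -/
def IsFrob (K : Type) [Field K] (A B : Matrix (Fin 6) (Fin 6) ℤ) (v : HeightOneSpectrum (𝓞 K))
    (ω : Fin 4 → ℂ) : Prop :=
  (∀ j, ‖ω j‖ = (qv K v : ℝ) ^ ((3 : ℝ) / 2)) ∧
    ∀ (k : Type) [Field k] [Fintype k] [Algebra (𝓞 K ⧸ v.asIdeal) k] (r : ℕ),
      Fintype.card k = qv K v ^ r →
      (numP A B k : ℂ) =
        1 + (qv K v : ℂ) ^ r + (qv K v : ℂ) ^ (2 * r) + (qv K v : ℂ) ^ (3 * r) - ∑ j, ω j ^ r

open Classical in
/-- `L` is entire and is the Euler product of `∏_j (1 - ω_j q_v^{-s})⁻¹` over the places `v` of `K` not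
dividing `M`, where `ω_j` are the eigenvalues of Frobenius at `v` on `H³(X)` -/
def IsL (K : Type) [Field K] (A B : Matrix (Fin 6) (Fin 6) ℤ) (M : ℤ) (L : ℂ → ℂ) : Prop :=
  Differentiable ℂ L ∧ ∃ ω : HeightOneSpectrum (𝓞 K) → Fin 4 → ℂ,
    (∀ v, (M : 𝓞 K) ∉ v.asIdeal → IsFrob K A B v (ω v)) ∧
    ∀ s : ℂ, (5 : ℝ) / 2 < s.re →
      HasProd (fun v : HeightOneSpectrum (𝓞 K) => if (M : 𝓞 K) ∈ v.asIdeal then 1 else
        ∏ j, (1 - ω v j * (qv K v : ℂ) ^ (-s))⁻¹) (L s)

/-- `n (10 n y₀² + y₁² + y₂² + y₃² + 3 y₄² - 5 y₅²)` -/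
def exA (n : ℤ) : Matrix (Fin 6) (Fin 6) ℤ :=
  !![10 * n ^ 2, 0, 0, 0, 0, 0;
     0, n, 0, 0, 0, 0;
     0, 0, n, 0, 0, 0;
     0, 0, 0, n, 0, 0;
     0, 0, 0, 0, 3 * n, 0;
     0, 0, 0, 0, 0, -5 * n]

/-- `10 n y₀² - y₁² + 5 y₂² - 5 y₃² - 50 y₄ y₅` -/
def exB (n : ℤ) : Matrix (Fin 6) (Fin 6) ℤ :=
  !![10 * n, 0, 0, 0, 0, 0;
     0, -1, 0, 0, 0, 0;
     0, 0, 5, 0, 0, 0;
     0, 0, 0, -5, 0, 0;
     0, 0, 0, 0, 0, -25;
     0, 0, 0, 0, -25, 0]

/-- `D` is a fundamental discriminant (`1` included) -/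
def Fund (D : ℤ) : Prop := (Squarefree D ∧ D % 4 = 1) ∨
  ∃ m : ℤ, D = 4 * m ∧ Squarefree m ∧ (m % 4 = 2 ∨ m % 4 = 3)

/-- the squarefree integer `d` with `ℚ(√d) = ℚ(√D)` -/
def core (D : ℤ) : ℤ := if D % 2 = 1 then D else D / 4

open Classical in
/-- the number of the squarefree integers `D`, `|D| ≤ X`, with the property `P` -/
noncomputable def count (P : ℤ → Prop) (X : ℕ) : ℕ :=
  ((Finset.Icc (-(X : ℤ)) X).filter fun D => Squarefree D ∧ P D).card

open Classical in
/-- the number of the fundamental discriminants `D`, `|D| ≤ X`, for which `core D` has the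
property `P` -/
noncomputable def countDisc (P : ℤ → Prop) (X : ℕ) : ℕ :=
  ((Finset.Icc (-(X : ℤ)) X).filter fun D => Fund D ∧ P (core D)).card

/-- the set of the quadratic fields `ℚ(√D)` with the property `P` has the proportion `p` among all real
quadratic fields and the proportion `n` among all imaginary quadratic fields, in the ordering by the
absolute value of the discriminant and in the ordering by `|D|`, `D` squarefree -/
def HasProportions (P : ℤ → Prop) (p n : ℝ) : Prop :=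
  Tendsto (fun X : ℕ => (countDisc (fun D => 0 < D ∧ P D) X : ℝ) /
    (countDisc (fun D => 0 < D) X : ℝ)) atTop (𝓝 p) ∧
  Tendsto (fun X : ℕ => (countDisc (fun D => D < 0 ∧ P D) X : ℝ) /
    (countDisc (fun D => D < 0) X : ℝ)) atTop (𝓝 n) ∧
  Tendsto (fun X : ℕ => (count (fun D => 0 < D ∧ P D) X : ℝ) /
    (count (fun D => 0 < D) X : ℝ)) atTop (𝓝 p) ∧
  Tendsto (fun X : ℕ => (count (fun D => D < 0 ∧ P D) X : ℝ) /
    (count (fun D => D < 0) X : ℝ)) atTop (𝓝 n)

open Classical in
/-- the number of the pairs of squarefree integers `D, D'`, `|D|, |D'| ≤ X`, both with the property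
`P` -/
noncomputable def countPairs (P : ℤ → Prop) (X : ℕ) : ℕ :=
  ((Finset.Icc (-(X : ℤ)) X ×ˢ Finset.Icc (-(X : ℤ)) X).filter fun z =>
    (Squarefree z.1 ∧ P z.1) ∧ (Squarefree z.2 ∧ P z.2)).card

section proof

open Pool.Agent.N975.AF (EC Law disc_tw zb_all)
open Pool.Agent.N875.X15 (Fin2)
open Pool.Agent.N916.GB (eta)
open Pool.Agent.N919.BS (NS NF)

theorem E_eq (a : ℤ) (K : Type) [Field K] :
    E a K = EC K (-12987 * (-a) ^ 2) (-263466 * (-a) ^ 3) := by
  have e1 : (-12987 * a ^ 2 : ℤ) = -12987 * (-a) ^ 2 := by ring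
  have e2 : (263466 * a ^ 3 : ℤ) = -263466 * (-a) ^ 3 := by ring
  unfold E EC
  rw [e1, e2]

theorem rz_iff (a : ℤ) :
    RankZeroShaTwo a ↔ Fin2 (EC ℚ (-12987 * (-a) ^ 2) (-263466 * (-a) ^ 3)) := by
  unfold RankZeroShaTwo Pool.Agent.N875.X15.Fin2
  rw [E_eq]
  refine and_congr Iff.rfl (forall_congr' fun x => ?_)
  rw [two_nsmul]

theorem disc15 : 4 * (-12987 : ℤ) ^ 3 + 27 * (-263466) ^ 2 ≠ 0 := by norm_num

theorem law15 : Law (-12987) (-263466) := fun _ hN h => Pool.Agent.N973.P15G.F.rank15 hN h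

/-- one curve over the field -/
theorem curve {r : ℕ} {d : Fin r → ℤ} {a : ℤ} (ha : a ≠ 0) (hind : Independent d) (hg : Good a d)
    (K : Type) [Field K] [NumberField K] {x : Fin r → K} (hx : ∀ i, x i ^ 2 = (d i : K))
    (hK : IntermediateField.adjoin ℚ (Set.range x) = ⊤) {N : ℤ} (hN : N ≠ 0)
    (hdvd : 30 * a * ∏ i, d i ∣ N) :
    Finite (E a K).toAffine.Point ∧ ∃ G : ℂ → ℂ, Differentiable ℂ G ∧ G 1 ≠ 0 ∧
      ∀ s : ℂ, (3 : ℝ) / 2 < s.re →
        HasProd (fun v : HeightOneSpectrum (𝓞 K) => open Classical in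
          if (N : 𝓞 K) ∈ v.asIdeal then 1 else
          (Pool.Agent.N844.QP.denV K a v s)⁻¹) (G s) := by
  classical
  have hd0 : ∀ T : Finset (Fin r), ∏ i ∈ T, d i ≠ 0 := by
    intro T
    rw [Finset.prod_ne_zero_iff]
    intro i _ h0
    refine hind {i} (Finset.singleton_nonempty i) ?_
    rw [Finset.prod_singleton, h0]
    exact ⟨0, rfl⟩
  have hm : -a ≠ 0 := neg_ne_zero.2 ha
  obtain ⟨⟨F, hF, hF1⟩, hfin⟩ := Pool.Agent.Y687.MQ.mq_zero hind (disc_tw disc15 hm) (fun T => by
    have e1 : (-12987 : ℤ) * (-a) ^ 2 * (∏ i ∈ T, d i) ^ 2 =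
        -12987 * (-a * ∏ i ∈ T, d i) ^ 2 := by ring
    have e2 : (-263466 : ℤ) * (-a) ^ 3 * (∏ i ∈ T, d i) ^ 3 =
        -263466 * (-a * ∏ i ∈ T, d i) ^ 3 := by ring
    rw [e1, e2]
    have h1 := (rz_iff _).1 (hg T)
    have e3 : -(a * ∏ i ∈ T, d i) = -a * ∏ i ∈ T, d i := by ring
    rw [e3] at h1
    exact zb_all disc15 law15 (mul_ne_zero hm (hd0 T)) h1) K x hx hK
  refine ⟨?_, ?_⟩
  · rw [E_eq]
    exact hfin
  obtain ⟨G, h1, h2, h3⟩ := Pool.Agent.R494.AV.more (K := K) (N := N) hN (fun v hv => by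
    have h4 := Pool.Agent.N856.JL.Fld.bad_of (m := -a) v hv
    refine Pool.Agent.N844.QP.mem_of_dvd ?_ h4
    refine Dvd.dvd.trans ?_ hdvd
    exact ⟨-1, by ring⟩) hF hF1
  refine ⟨G, h1, h2, fun s hs => ?_⟩
  refine (congrArg (fun g => HasProd g (G s)) (funext fun v => ?_)).mp (h3 s hs)
  have e1 : (-12987 : ℤ) * (-a) ^ 2 = Pool.Agent.N844.QP.aE a := by
    unfold Pool.Agent.N844.QP.aE
    ring
  have e2 : (-263466 : ℤ) * (-a) ^ 3 = Pool.Agent.N844.QP.bE a := by
    unfold Pool.Agent.N844.QP.bE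
    ring
  rw [e1, e2]
  rfl

/-- the threefold -/
theorem threefold {r : ℕ} {d : Fin r → ℤ} {a a' : ℤ} (ha : a ≠ 0) (ha' : a' ≠ 0)
    (hind : Independent d) (hg : Good a d) (hg' : Good a' d) (K : Type) [Field K] [NumberField K]
    {x : Fin r → K} (hx : ∀ i, x i ^ 2 = (d i : K))
    (hK : IntermediateField.adjoin ℚ (Set.range x) = ⊤) :
    Finite (E a K).toAffine.Point ∧ Finite (E a' K).toAffine.Point ∧
      ∀ m : ℤ, m ≠ 0 → ∀ A B : Matrix (Fin 6) (Fin 6) ℤ, IsPencil a a' m A B →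
        (∀ (k : Type) [Field k] [CharZero k], Smooth A B k) ∧
        (∀ (p : ℕ) (k : Type) [Field k] [CharP k p], p.Prime →
          ¬ (p : ℤ) ∣ 30 * (a * a' * m) → Smooth A B k) ∧
        ∃ L : ℂ → ℂ, IsL K A B (30 * (a * a' * m) * ∏ i, d i) L ∧ L 2 ≠ 0 := by
  classical
  have hD : ∏ i, d i ≠ 0 := by
    rw [Finset.prod_ne_zero_iff]
    intro i _ h0
    refine hind {i} (Finset.singleton_nonempty i) ?_
    rw [Finset.prod_singleton, h0]
    exact ⟨0, rfl⟩
  have hN : 30 * (a * a') * ∏ i, d i ≠ 0 :=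
    mul_ne_zero (mul_ne_zero (by norm_num) (mul_ne_zero ha ha')) hD
  obtain ⟨hf, G, g1, g2, g3⟩ := curve ha hind hg K hx hK hN ⟨a', by ring⟩
  obtain ⟨hf', G', g1', g2', g3'⟩ := curve ha' hind hg' K hx hK hN ⟨a, by ring⟩
  refine ⟨hf, hf', fun m hm A B hAB => ?_⟩
  have hAB' : Pool.Agent.N844.QP.IsPencil a a' m A B := ⟨hAB.symA, hAB.symB, hAB.disc⟩
  refine ⟨fun k _ _ y hy h6 h7 => ?_, fun p k _ _ hp hpM y hy h6 h7 => ?_, ?_⟩
  · exact hAB'.smooth (by norm_num) (by norm_num) (by norm_num) (by exact_mod_cast ha)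
      (by exact_mod_cast ha') (by exact_mod_cast hm) hy h6 h7
  · have c0 : ∀ z : ℤ, z ∣ 30 * (a * a' * m) → (z : k) ≠ 0 := fun z hz h0 =>
      hpM (((CharP.intCast_eq_zero_iff k p z).1 h0).trans hz)
    have k2 : (2 : k) ≠ 0 := by simpa using c0 2 ⟨15 * (a * a' * m), by ring⟩
    have k3 : (3 : k) ≠ 0 := by simpa using c0 3 ⟨10 * (a * a' * m), by ring⟩
    have k5 : (5 : k) ≠ 0 := by simpa using c0 5 ⟨6 * (a * a' * m), by ring⟩
    exact hAB'.smooth k2 k3 k5 (c0 a ⟨30 * (a' * m), by ring⟩)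
      (c0 a' ⟨30 * (a * m), by ring⟩) (c0 m ⟨30 * (a * a'), by ring⟩) hy h6 h7
  · obtain ⟨ω, hω, L, l1, l2, l3⟩ := Pool.Agent.N844.QP.eulerK (K := K) ha ha' hm hD hAB'
      (F := fun s => G s * G' s) (g1.mul g1') (fun s hs => by
        refine (congrArg (fun g => HasProd g (G s * G' s)) (funext fun v => ?_)).mp
          ((g3 s hs).mul (g3' s hs))
        by_cases hv : ((30 * (a * a') * ∏ i, d i : ℤ) : 𝓞 K) ∈ v.asIdeal
        · rw [if_pos hv, if_pos hv, if_pos hv, one_mul]
        · rw [if_neg hv, if_neg hv, if_neg hv]) (mul_ne_zero g2 g2')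
    exact ⟨L, ⟨l1, ω, hω, l2⟩, l3⟩

theorem rz0 (D : ℤ) : RankZeroShaTwo (-D) ↔ Pool.Agent.N963.JT.R15 D := by
  rw [rz_iff, neg_neg]
  exact Iff.rfl

theorem one_good : RankZeroShaTwo (-1) :=
  (rz0 1).2 ((Pool.Agent.N875.D15.fin2S_iff_sg15 squarefree_one).2 (Or.inr (Or.inl rfl)))

theorem good_one (D : ℤ) : Good (-1) (fun _ : Fin 1 => D) ↔ RankZeroShaTwo (-D) := by
  constructor
  · intro h
    have := h Finset.univ
    simpa using this
  · intro h T
    rcases T.eq_empty_or_nonempty with rfl | hT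
    · rw [Finset.prod_empty, mul_one]
      exact one_good
    · have : T = {0} := by
        obtain ⟨i, hi⟩ := hT
        ext j
        rw [Finset.mem_singleton]
        have hj : j = 0 := Subsingleton.elim j 0
        have hi0 : i = 0 := Subsingleton.elim i 0
        subst hi0
        exact ⟨fun _ => hj, fun _ => hj ▸ hi⟩
      rw [this, Finset.prod_singleton, neg_one_mul]
      exact h

theorem fund_core {D : ℤ} (h : Fund D) : Squarefree (core D) := by
  rcases h with ⟨h1, h2⟩ | ⟨m, rfl, h1, h2⟩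
  · unfold core
    rw [if_pos (by omega)]
    exact h1
  · unfold core
    rw [if_neg (by omega)]
    have : 4 * m / 4 = m := by omega
    rw [this]
    exact h1

theorem count_eq (P Q : ℤ → Prop) (h : ∀ d, Squarefree d → (P d ↔ Q d)) (X : ℕ) :
    count P X = NS Q X := by
  classical
  unfold count NS
  refine congrArg Finset.card (Finset.ext fun n => ?_)
  refine (Finset.mem_filter).trans (Iff.trans ?_ (Finset.mem_filter).symm)
  refine and_congr_right fun _ => and_congr_right fun hs => h n hs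

theorem countDisc_eq (P Q : ℤ → Prop) (h : ∀ d, Squarefree d → (P d ↔ Q d)) (X : ℕ) :
    countDisc P X = NF Q X := by
  classical
  unfold countDisc NF
  refine congrArg Finset.card (Finset.ext fun n => ?_)
  refine (Finset.mem_filter).trans (Iff.trans ?_ (Finset.mem_filter).symm)
  refine and_congr_right fun _ => and_congr_right fun hs => h _ (fund_core hs)

/-- from the densities of the criteria -/
theorem dens_of {P Q : ℤ → Prop} {p n : ℝ} (hPQ : ∀ d, Squarefree d → (P d ↔ Q d))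
    (h : Pool.Agent.N975.SD.Sd Q p n) : HasProportions P p n := by
  obtain ⟨h1, h2, h3, h4⟩ := h
  refine ⟨?_, ?_, ?_, ?_⟩
  · refine h2.congr fun X => ?_
    rw [countDisc_eq _ _ fun d hs => and_congr_right fun _ => hPQ d hs,
      countDisc_eq (fun D => 0 < D) (fun D => 0 < D ∧ True) fun d _ => (iff_of_eq (and_true _)).symm]
  · refine h4.congr fun X => ?_
    rw [countDisc_eq _ _ fun d hs => and_congr_right fun _ => hPQ d hs,
      countDisc_eq (fun D => D < 0) (fun D => D < 0 ∧ True) fun d _ => (iff_of_eq (and_true _)).symm]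
  · refine h1.congr fun X => ?_
    rw [count_eq _ _ fun d hs => and_congr_right fun _ => hPQ d hs,
      count_eq (fun D => 0 < D) (fun D => 0 < D ∧ True) fun d _ => (iff_of_eq (and_true _)).symm]
  · refine h3.congr fun X => ?_
    rw [count_eq _ _ fun d hs => and_congr_right fun _ => hPQ d hs,
      count_eq (fun D => D < 0) (fun D => D < 0 ∧ True) fun d _ => (iff_of_eq (and_true _)).symm]

theorem hasProd_eta : HasProd (fun i : ℕ => 1 - (1 / 2 : ℝ) ^ (i + 1)) eta := by
  have h : Multipliable fun i : ℕ => 1 + -((1 / 2 : ℝ) ^ (i + 1)) := by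
    apply multipliable_one_add_of_summable
    have h1 : Summable fun i : ℕ => (1 / 2 : ℝ) ^ i * (1 / 2) :=
      (summable_geometric_of_lt_one (by norm_num) (by norm_num)).mul_right _
    refine h1.congr fun i => ?_
    rw [norm_neg, Real.norm_of_nonneg (by positivity), pow_succ]
  have h3 := h.hasProd
  have e : (fun i : ℕ => 1 + -((1 / 2 : ℝ) ^ (i + 1))) = fun i : ℕ => 1 - (1 / 2 : ℝ) ^ (i + 1) := by
    funext i
    ring
  rw [e] at h3
  exact h3

theorem pairs_eq (P : ℤ → Prop) (X : ℕ) : countPairs P X = count P X ^ 2 := by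
  classical
  unfold countPairs count
  rw [sq, ← Finset.card_product]
  refine congrArg Finset.card (Finset.ext fun z => ?_)
  simp only [Finset.mem_filter, Finset.mem_product]
  tauto

theorem dens0 : Tendsto (fun X : ℕ => (count (fun D => RankZeroShaTwo (-D)) X : ℝ) /
    (count (fun _ => True) X : ℝ)) atTop (𝓝 (eta / 2)) := by
  have key : ∀ d, Squarefree d → d ≠ 1 → d ≠ -1 →
      (Pool.Agent.N809.PQ.Sg15 d ↔ Pool.Agent.N963.JT.R15 d) :=
    fun d hs h1 h2 => Pool.Agent.N963.JT.r15_iff d hs h1 h2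
  refine (Pool.Agent.N963.JT.NS_cl key Pool.Agent.N916.PQ.sf15 Pool.Agent.N969.Den.NS_top).congr
    fun X => ?_
  rw [count_eq _ _ fun d _ => rz0 d, count_eq (fun _ => True) (fun _ => True) fun _ _ => Iff.rfl]

theorem densP : Tendsto (fun X : ℕ => (countPairs (fun D => RankZeroShaTwo (-D)) X : ℝ) /
    (countPairs (fun _ => True) X : ℝ)) atTop (𝓝 ((eta / 2) ^ 2)) := by
  refine (dens0.pow 2).congr fun X => ?_
  rw [pairs_eq, pairs_eq, div_pow]
  push_cast
  rfl

end proof

/-- **Beilinson's conjecture for intersections of two quadrics in `P⁵`.** -/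
theorem result :
    -- all multiquadratic fields
    (∀ (a a' : ℤ) (r : ℕ) (d : Fin r → ℤ), a ≠ 0 → a' ≠ 0 → Independent d → Good a d → Good a' d →
      ∀ (K : Type) [Field K] [NumberField K], IsMultiquadratic d K →
        Finite (E a K).toAffine.Point ∧ Finite (E a' K).toAffine.Point ∧
        ∀ m : ℤ, m ≠ 0 → ∀ A B : Matrix (Fin 6) (Fin 6) ℤ, IsPencil a a' m A B →
          (∀ (k : Type) [Field k] [CharZero k], Smooth A B k) ∧
          (∀ (p : ℕ) (k : Type) [Field k] [CharP k p], p.Prime →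
            ¬ (p : ℤ) ∣ 30 * (a * a' * m) → Smooth A B k) ∧
          ∃ L : ℂ → ℂ, IsL K A B (30 * (a * a' * m) * ∏ i, d i) L ∧ L 2 ≠ 0) ∧
    -- an explicit pencil for every `a`
    (∀ a : ℤ, IsPencil a a 5 (exA a) (exB a)) ∧
    ∃ η : ℝ, HasProd (fun i : ℕ => 1 - (1 / 2 : ℝ) ^ (i + 1)) η ∧ 0.2887 < η ∧ η < 0.2889 ∧
      -- varying threefolds over the rational numbers
      HasProportions (fun D => RankZeroShaTwo (-D)) (23 / 48 * η) (25 / 48 * η) ∧
      Tendsto (fun X : ℕ => (countPairs (fun D => RankZeroShaTwo (-D)) X : ℝ) /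
        (countPairs (fun _ => True) X : ℝ)) atTop (𝓝 ((η / 2) ^ 2)) ∧
      -- a fixed threefold over all quadratic fields
      HasProportions (fun D => Good (-1) (fun _ : Fin 1 => D)) (23 / 48 * η) (25 / 48 * η) := by
  refine ⟨fun a a' r d ha ha' hind hg hg' K _ _ hK => ?_, fun a => ?_, Pool.Agent.N916.GB.eta,
    hasProd_eta, Pool.Agent.N916.GB.eta_bounds.1, Pool.Agent.N916.GB.eta_bounds.2,
    dens_of (fun d _ => rz0 d) Pool.Agent.N975.SD.sd15, densP,
    dens_of (fun d _ => (good_one d).trans (rz0 d)) Pool.Agent.N975.SD.sd15⟩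
  · obtain ⟨x, hx, hgen⟩ := hK
    exact threefold ha ha' hind hg hg' K hx hgen
  · have h := Pool.Agent.N844.QP.ex_pencil a
    exact ⟨h.symA, h.symB, h.disc⟩

end Pool.Agent.Results.MP_6dc9d1_nt.QuadricPencilsAllFields
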